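import Mathlib
import Pool.Agent.H45.LueckDefs
import Pool.Agent.H45.LueckManifold

/-!
# The determinant approximation fails for a closed 3-manifold group
-/

namespace Pool.Agent.Results.MP_154d63_an.DetApproxFails

open Filter Topology Pool.Agent.H45.Lueck
open scoped Manifold ContDiff

/-- There are a closed smooth 3-manifold `M`, a strictly decreasing chain
`π₁(M) = N 0 > N 1 > ⋯` of normal subgroups of finite index with trivial intersection and
`A ∈ M_1(ℤ[π₁(M)])` such that `tr (log A_k* A_k) / [π₁(M) : N k]` has no limit in `[-∞, ∞]`. -/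
theorem result : ∃ (M : Type) (_ : TopologicalSpace M)
    (_ : ChartedSpace (EuclideanSpace ℝ (Fin 3)) M) (_ : IsManifold (𝓡 3) ∞ M)
    (_ : T2Space M) (_ : CompactSpace M) (_ : ConnectedSpace M) (x : M)
    (N : ℕ → Subgroup (FundamentalGroup M x)) (_ : ∀ k, (N k).Normal)
    (_ : ∀ k, (N k).FiniteIndex)
    (A : Matrix (Fin 1) (Fin 1) (MonoidAlgebra ℤ (FundamentalGroup M x))),
    N 0 = ⊤ ∧ StrictAnti N ∧ ⨅ k, N k = ⊥ ∧
    ¬ ∃ L : EReal, Tendsto (fun k => ((normalizedTrLog A (N k) : ℝ) : EReal)) atTop (𝓝 L) :=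
  ⟨NilM, inferInstance, inferInstance, inferInstance, inferInstance, inferInstance,
    inferInstance, NilM.proj 0, group_level NilM.fundamentalGroupEquiv⟩

end Pool.Agent.Results.MP_154d63_an.DetApproxFails
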